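import Pool.Agent.Lib_helper25.PV.Final2

set_option autoImplicit false

namespace Pool.Agent.Results.MP_b08f5f_an.EveryFrame

open MeasureTheory Filter Topology Set
open scoped ComplexConjugate

noncomputable section

/-- configurations of `N` points of the plane -/
abbrev Conf (N : ℕ) := Fin N → ℂ

/-- the velocities of `N` vortices of strength one: `-(i/2π) ∑_{j ≠ i} 1 / conj (z i - z j)` -/
def vel {N : ℕ} (z : Conf N) : Conf N := fun i =>
  -(Complex.I / (2 * Real.pi)) * ∑ j ∈ Finset.univ.erase i, 1 / conj (z i - z j)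

/-- `w` is, for all times and without collision, a solution of the vortex equations with the
background rotation `i c w` (for `c = 0`: the equations of the problem) -/
def Motion {N : ℕ} (c : ℝ) (w : ℝ → Conf N) : Prop :=
  ∀ t, Function.Injective (w t) ∧
    ∀ i, HasDerivAt (fun s => w s i) (vel (w t) i + c * Complex.I * w t i) t

/-- for the solution `w` with `w 0 = z` and every continuous function `Ψ` of the `N` points, the
time averages of `Ψ`, after a rotation by `θ`, have a limit that does not depend on `θ` -/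
def Iso {N : ℕ} (c : ℝ) (z : Conf N) : Prop :=
  ∀ w : ℝ → Conf N, Motion c w → w 0 = z → ∀ Ψ : Conf N → ℝ, Continuous Ψ → ∃ l : ℝ, ∀ θ : ℝ,
    Tendsto (fun T : ℝ => T⁻¹ * ∫ t in (0 : ℝ)..T,
      Ψ (fun i => Complex.exp (θ * Complex.I) * w t i)) atTop (𝓝 l)

theorem result (N : ℕ) (hN : 2 ≤ N) :
    -- the solutions exist and are unique
    (∀ (c : ℝ) (z : Conf N), Function.Injective z → ∃ w : ℝ → Conf N, Motion c w ∧ w 0 = z ∧
      ∀ w' : ℝ → Conf N, Motion c w' → w' 0 = z → w' = w) ∧
    -- almost every datum: all speeds but countably many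
    (∀ᵐ z : Conf N, {c : ℝ | ¬ Iso c z}.Countable) ∧
    -- every speed but `0`: almost every datum
    (∀ c : ℝ, c ≠ 0 → ∀ᵐ z : Conf N, Iso c z) := by
  obtain ⟨V⟩ := Pool.Agent.Lib_helper25.PV.exists_vflow N (by omega)
  exact ⟨fun c z hz => V.rmotion c hz, V.isoRot_all, fun c hc => V.isoRot_fixed hc⟩

end

end Pool.Agent.Results.MP_b08f5f_an.EveryFrame
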