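import Pool.Agent.Lib_helper99.HBF.CC
import Pool.Agent.Lib_helper99.HBF.FA
import Pool.Agent.Lib_helper99.HBF.FB
import Pool.Agent.Lib_helper99.HBF.HA
import Pool.Agent.Lib_helper99.HBF.KB
import Pool.Agent.Lib_helper99.HBF.LE
import Pool.Agent.Lib_helper99.HBF.LZ

/-!
# Hardy's theorem for `GL₂` over imaginary quadratic fields

Let `K` be an imaginary quadratic field of class number one and let `f` be a cuspidal eigenform of
the Laplace operator and of all Hecke operators on hyperbolic 3-space for `PGL₂(𝓞 K)` (a Bianchi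
Maass form). The completed L-function of `f`, of degree 4 over `ℚ`, has infinitely many zeros of
odd order on the critical line, above and below every height.

The proof uses the integral `M(σ, z) = ∫_ℂ ∫_0^∞ f(yv, y) (1 + |v|²)^{z-1/2-σ} y^{2z-2} dy d²v =
π Γ(σ-1/2+ν/2) Γ(σ-1/2-ν/2) Λ(z) / (Γ(σ+1/2-z) Γ(σ-1/2+z))`, whose kernel is positive on the
critical line, and the Rankin-Selberg convolutions of `f` with itself and with its Galois
conjugate.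

Blueprint and assembly by helper99. Proof blocks by helper2, helper4, helper5, helper6, helper11,
helper14, helper16, helper24, helper27, helper33, helper36, helper40, helper47, helper55, helper59,
helper62, helper65, helper69, helper71, helper72, helper74, helper75, helper79, helper95, helper96,
helper99; statements read by helper4 and helper19; the arithmetical part uses the library of
`HardyDegreeFour` (helper98 and others).
-/

namespace Pool.Agent.Superseded.HardyImagQuadOne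

open NumberField Complex Pool.Agent.HB
open Pool.Agent.H4 (NI Hek)

/-- The Bessel function `K_ν(x) = ∫_0^∞ exp(-x cosh u) cosh(ν u) du`. -/
noncomputable def besselK (ν : ℂ) (x : ℝ) : ℂ :=
  ∫ u in Set.Ioi (0 : ℝ), cexp (-((x * Real.cosh u : ℝ) : ℂ)) * Complex.cosh (ν * (u : ℂ))

variable {K : Type} [Field K] [NumberField K]

open scoped Classical in
/-- The series `f(z, y) = ∑_{a ≠ 0} λ((a)) y K_ν(4π|a|y/|κ|) e(Tr(a z/κ))`, `z ∈ ℂ`, `y > 0`, over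
the nonzero integers `a` of `K` (`σ` is a complex embedding of `K`, `κ` a generator of the
different). -/
noncomputable def form (σ : K →+* ℂ) (κ : 𝓞 K) (ν : ℂ) (lam : Ideal (𝓞 K) → ℝ) (z : ℂ) (y : ℝ) :
    ℂ :=
  ∑' a : {a : 𝓞 K // a ≠ 0}, (lam (Ideal.span {a.1}) : ℂ) *
    (y * besselK ν (4 * Real.pi * ‖σ (algebraMap (𝓞 K) K a.1)‖ * y /
      ‖σ (algebraMap (𝓞 K) K κ)‖)) *
    cexp (2 * Real.pi * I * ((2 * (σ (algebraMap (𝓞 K) K a.1) * z /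
      σ (algebraMap (𝓞 K) K κ)).re : ℝ) : ℂ))

/-- `lam` is the system of Hecke eigenvalues (normalised by `|λ(𝔭)| ≤ 2` in the Ramanujan
conjecture) of a cuspidal eigenform on hyperbolic 3-space for `SL₂(𝓞 K)` with Laplace eigenvalue
`1 - ν²`: the Hecke relations, polynomial growth, and the invariance under `SL₂(𝓞 K)` of the
function `form`, for the action of `(a, b; c, d)` on the points `(z, y)`, `z ∈ ℂ`, `y > 0`, of
hyperbolic 3-space. -/
structure IsEigenform (σ : K →+* ℂ) (κ : 𝓞 K) (ν : ℂ) (lam : Ideal (𝓞 K) → ℝ) : Prop where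
  one : lam ⊤ = 1
  mul : ∀ 𝔞 𝔟 : Ideal (𝓞 K), IsCoprime 𝔞 𝔟 → lam (𝔞 * 𝔟) = lam 𝔞 * lam 𝔟
  hecke : ∀ 𝔭 : Ideal (𝓞 K), 𝔭.IsPrime → 𝔭 ≠ ⊥ → ∀ j : ℕ,
    lam (𝔭 ^ (j + 2)) = lam 𝔭 * lam (𝔭 ^ (j + 1)) - lam (𝔭 ^ j)
  grow : ∃ C A : ℝ, ∀ 𝔞 : Ideal (𝓞 K), 𝔞 ≠ ⊥ → |lam 𝔞| ≤ C * (Ideal.absNorm 𝔞 : ℝ) ^ A
  inv : ∀ (a b c d : 𝓞 K), a * d - b * c = 1 → ∀ (z : ℂ) (y : ℝ), 0 < y →
    form σ κ ν lam
      ((((σ a * z + σ b) * (starRingEnd ℂ) (σ c * z + σ d) + σ a * (starRingEnd ℂ) (σ c) * y ^ 2) /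
        ((‖σ c * z + σ d‖ ^ 2 + ‖σ c‖ ^ 2 * y ^ 2 : ℝ) : ℂ)))
      (y / (‖σ c * z + σ d‖ ^ 2 + ‖σ c‖ ^ 2 * y ^ 2)) = form σ κ ν lam z y

theorem fi_form (σ : K →+* ℂ) (κ : 𝓞 K) {ν : ℂ} (hν : Adm ν) (lam : Ideal (𝓞 K) → ℝ) (z : ℂ)
    (y : ℝ) : form σ κ ν lam z y = fser (σ.comp (algebraMap (𝓞 K) K)) κ ν (cf lam) (z, y) := by
  classical
  unfold form fser
  have h1 : ∀ a : 𝓞 K, ft (σ.comp (algebraMap (𝓞 K) K)) κ ν (cf lam) (z, y) a =
      Set.indicator {a : 𝓞 K | a ≠ 0} (fun a : 𝓞 K => (lam (Ideal.span {a}) : ℂ) *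
        (y * besselK ν (4 * Real.pi * ‖σ (algebraMap (𝓞 K) K a)‖ * y /
          ‖σ (algebraMap (𝓞 K) K κ)‖)) *
        cexp (2 * Real.pi * I * ((2 * (σ (algebraMap (𝓞 K) K a) * z /
          σ (algebraMap (𝓞 K) K κ)).re : ℝ) : ℂ))) a := by
    intro a
    by_cases ha : a = 0
    · rw [Set.indicator_of_notMem (by simpa using ha)]
      unfold ft cf
      rw [if_pos ha]
      simp
    · rw [Set.indicator_of_mem (show a ∈ {a : 𝓞 K | a ≠ 0} from ha)]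
      unfold ft cf
      rw [if_neg ha]
      have h2 : besselK ν (4 * Real.pi * ‖σ (algebraMap (𝓞 K) K a)‖ * y /
          ‖σ (algebraMap (𝓞 K) K κ)‖) =
          ((Kr ν (ca (σ.comp (algebraMap (𝓞 K) K)) κ a * y) : ℝ) : ℂ) := by
        have h3 := kb_real hν (ca (σ.comp (algebraMap (𝓞 K) K)) κ a * y)
        rw [← h3]
        have h4 : 4 * Real.pi * ‖σ (algebraMap (𝓞 K) K a)‖ * y /
          ‖σ (algebraMap (𝓞 K) K κ)‖ = ca (σ.comp (algebraMap (𝓞 K) K)) κ a * y := by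
          unfold ca
          simp only [RingHom.comp_apply]
          ring
        rw [h4]
        rfl
      rw [h2]
      simp only [RingHom.comp_apply]
      push_cast
      ring
  rw [tsum_congr h1]
  exact tsum_subtype {a : 𝓞 K | a ≠ 0} (fun a : 𝓞 K => (lam (Ideal.span {a}) : ℂ) *
        (y * besselK ν (4 * Real.pi * ‖σ (algebraMap (𝓞 K) K a)‖ * y /
          ‖σ (algebraMap (𝓞 K) K κ)‖)) *
        cexp (2 * Real.pi * I * ((2 * (σ (algebraMap (𝓞 K) K a) * z /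
          σ (algebraMap (𝓞 K) K κ)).re : ℝ) : ℂ)))

theorem fi_order {f : ℂ → ℂ} (hf : Differentiable ℂ f) {c : ℂ} (hc : c ≠ 0) (z : ℂ) :
    analyticOrderNatAt (fun w => c * f w) z = analyticOrderNatAt f z := by
  have h1 : AnalyticAt ℂ f z := hf.analyticAt z
  have h2 : AnalyticAt ℂ (fun _ : ℂ => c) z := analyticAt_const
  have h3 : analyticOrderAt (fun _ : ℂ => c) z = 0 := by
    rw [h2.analyticOrderAt_eq_zero]
    exact hc
  have h4 : analyticOrderAt (fun w => c * f w) z = analyticOrderAt f z := by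
    have := analyticOrderAt_mul h2 h1
    rw [h3, zero_add] at this
    exact this
  unfold analyticOrderNatAt
  rw [h4]

/-- **Hardy's theorem for `GL₂` over imaginary quadratic fields.** The completed L-function `Λ` of
`f` is entire, it satisfies `Λ(1 - z) = Λ(z)`, it is real on the line `Re z = 1/2`, and it has
infinitely many zeros of odd order on this line, in both directions. -/
theorem result (K : Type) [Field K] [NumberField K] (hK : Module.finrank ℚ K = 2)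
    (σ : K →+* ℂ) (hσ : ∃ x, (σ x).im ≠ 0)
    (hcl : ∀ 𝔞 : Ideal (𝓞 K), ∃ a, 𝔞 = Ideal.span {a}) (κ : 𝓞 K)
    (hκ : differentIdeal ℤ (𝓞 K) = Ideal.span {κ}) (ν : ℂ)
    (hν : ν.re = 0 ∨ (ν.im = 0 ∧ |ν.re| < 1)) (lam : Ideal (𝓞 K) → ℝ)
    (hf : IsEigenform σ κ ν lam) :
    ∃ Λ : ℂ → ℂ, Differentiable ℂ Λ ∧
      (∀ z : ℂ, 3 / 2 < z.re →
        Summable (fun 𝔞 : {𝔞 : Ideal (𝓞 K) // 𝔞 ≠ ⊥} =>
          ‖(lam 𝔞.1 : ℂ) * (Ideal.absNorm 𝔞.1 : ℂ) ^ (-z)‖) ∧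
        Λ z = ((Ideal.absNorm (differentIdeal ℤ (𝓞 K)) : ℂ) / (2 * Real.pi) ^ 2) ^ z *
          (Gamma (z + ν / 2) * Gamma (z - ν / 2)) *
          ∑' 𝔞 : {𝔞 : Ideal (𝓞 K) // 𝔞 ≠ ⊥}, (lam 𝔞.1 : ℂ) * (Ideal.absNorm 𝔞.1 : ℂ) ^ (-z)) ∧
      (∀ z : ℂ, Λ (1 - z) = Λ z) ∧ (∀ t : ℝ, (Λ (1 / 2 + t * I)).im = 0) ∧
      (∀ T : ℝ, ∃ t : ℝ, T < t ∧ Odd (analyticOrderNatAt Λ (1 / 2 + t * I))) ∧
      ∀ T : ℝ, ∃ t : ℝ, t < T ∧ Odd (analyticOrderNatAt Λ (1 / 2 + t * I)) := by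
  rw [hκ]
  obtain ⟨τ, b, b', F⟩ := fld_exists hK σ hσ hcl κ hκ
  set s : 𝓞 K →+* ℂ := σ.comp (algebraMap (𝓞 K) K) with hs
  have h : Hek lam := ⟨hf.one, hf.mul, hf.hecke, hf.grow⟩
  have hν' : Adm ν := hν
  have hc : AF s κ ν (cf lam) := by
    refine cf_af F h fun γ P => ?_
    have hdet : γ 0 0 * γ 1 1 - γ 0 1 * γ 1 0 = 1 := by
      have := γ.det_coe
      rw [Matrix.det_fin_two] at this
      exact this
    have h3 := hf.inv (γ 0 0) (γ 0 1) (γ 1 0) (γ 1 1) hdet P.1.1 P.1.2 P.2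
    rw [fi_form σ κ hν', fi_form σ κ hν'] at h3
    have h4 : (act s γ P).1 = ((((σ (γ 0 0) * P.1.1 + σ (γ 0 1)) *
        (starRingEnd ℂ) (σ (γ 1 0) * P.1.1 + σ (γ 1 1)) +
          σ (γ 0 0) * (starRingEnd ℂ) (σ (γ 1 0)) * (P.1.2 : ℂ) ^ 2) /
        ((‖σ (γ 1 0) * P.1.1 + σ (γ 1 1)‖ ^ 2 + ‖σ (γ 1 0)‖ ^ 2 * P.1.2 ^ 2 : ℝ) : ℂ)),
      P.1.2 / (‖σ (γ 1 0) * P.1.1 + σ (γ 1 1)‖ ^ 2 + ‖σ (γ 1 0)‖ ^ 2 * P.1.2 ^ 2)) := by
      have h5 : den (Matrix.SpecialLinearGroup.map s γ) P =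
          ‖σ (γ 1 0) * P.1.1 + σ (γ 1 1)‖ ^ 2 + ‖σ (γ 1 0)‖ ^ 2 * P.1.2 ^ 2 := by
        unfold den
        rw [Complex.normSq_eq_norm_sq, Complex.normSq_eq_norm_sq]
        rfl
      unfold act actC
      simp only [h5]
      rw [Complex.ofReal_pow]
      rfl
    rw [h4]
    exact h3
  obtain ⟨h1, h2⟩ := hardy_data F hν' h hc
  have := units_finite F
  have hu : (Nat.card (𝓞 K)ˣ : ℂ) ≠ 0 := by
    have : Nat.card (𝓞 K)ˣ ≠ 0 := Nat.card_ne_zero.2 ⟨inferInstance, inferInstance⟩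
    exact_mod_cast this
  have hc0 : (4 / (Nat.card (𝓞 K)ˣ : ℂ)) ≠ 0 := div_ne_zero (by norm_num) hu
  have hd := lz_diff F hν' hc
  refine ⟨fun z => 4 / (Nat.card (𝓞 K)ˣ : ℂ) * Lz s κ ν (cf lam) z, ?_, ?_, ?_, ?_, ?_, ?_⟩
  · exact hd.const_mul _
  · intro z hz
    obtain ⟨h3, h4⟩ := lz_eval F hν' hc hz
    simp only [cf_gn F lam] at h3 h4
    refine ⟨h3, ?_⟩
    have h5 : ((Ideal.absNorm (Ideal.span {κ}) : ℂ) / (2 * Real.pi) ^ 2) =
        ((DD s κ / (2 * Real.pi) ^ 2 : ℝ) : ℂ) := by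
      have h6 : (Ideal.absNorm (Ideal.span {κ}) : ℝ) = DD s κ := F.norm κ
      rw [← h6]
      push_cast
      rfl
    rw [h5]
    simp only
    rw [h4]
    field_simp
  · intro z
    simp only
    rw [lz_fe F hν' hc]
  · intro t
    simp only
    have h3 := lz_real F hν' hc t
    have h4 : (4 / (Nat.card (𝓞 K)ˣ : ℂ)) = ((4 / (Nat.card (𝓞 K)ˣ : ℝ) : ℝ) : ℂ) := by
      push_cast
      rfl
    rw [h4, Complex.im_ofReal_mul, h3, mul_zero]
  · intro T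
    obtain ⟨t, ht, ho⟩ := h1 T
    exact ⟨t, ht, by rw [fi_order hd hc0]; exact ho⟩
  · intro T
    obtain ⟨t, ht, ho⟩ := h2 T
    exact ⟨t, ht, by rw [fi_order hd hc0]; exact ho⟩

end Pool.Agent.Superseded.HardyImagQuadOne
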